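import Mathlib
import Pool.Agent.Q38.ContactPlane

/-!
# The family `(x^2 + y^4, y^5 + λ x y^3 + a x y^(p+3) + x y^(p+4) + b x y^(2p+3))`, `λ^2 = -1`

In characteristic `p` all members with `a ≠ 0` are contact equivalent to
`(x^2 + 2 λ x y^2, x y^3 + y^(p+5))`.
-/

namespace Pool.Agent.Results.MP_65bbe4_ag.OneClass

open MvPowerSeries Pool.Agent.Q38.ContactPlane

variable {F : Type*} [Field F]

/-- `f_{a,b} = (x^2 + y^4, y^5 + λ x y^3 + a x y^(p+3) + x y^(p+4) + b x y^(2p+3))`. -/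
noncomputable def fam (p : ℕ) (l a b : F) : Fin 2 → MvPowerSeries (Fin 2) F :=
  ![X 0 ^ 2 + X 1 ^ 4,
    X 1 ^ 5 + C l * X 0 * X 1 ^ 3 + C a * X 0 * X 1 ^ (p + 3) + X 0 * X 1 ^ (p + 4) +
      C b * X 0 * X 1 ^ (2 * p + 3)]

/-- The normal form `(x^2 + 2 λ x y^2, x y^3 + y^(p+5))`. -/
noncomputable def nf (p : ℕ) (l : F) : Fin 2 → MvPowerSeries (Fin 2) F :=
  ![X 0 ^ 2 + C (2 * l) * X 0 * X 1 ^ 2, X 0 * X 1 ^ 3 + X 1 ^ (p + 5)]

/-! ### Symmetry and transitivity of contact equivalence -/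

lemma map_mulVec' (φ : MvPowerSeries (Fin 2) F ≃ₐ[F] MvPowerSeries (Fin 2) F)
    (U : Matrix (Fin 2) (Fin 2) (MvPowerSeries (Fin 2) F)) (f : Fin 2 → MvPowerSeries (Fin 2) F) :
    (fun i => φ (U.mulVec f i)) = (U.map φ).mulVec fun i => φ (f i) := by
  funext i
  simp [Matrix.mulVec, dotProduct]

lemma contactEquiv_symm {f g : Fin 2 → MvPowerSeries (Fin 2) F} (h : ContactEquiv f g) :
    ContactEquiv g f := by
  obtain ⟨U, φ, rfl⟩ := h
  refine ⟨Matrix.GeneralLinearGroup.map (φ.symm : MvPowerSeries (Fin 2) F →+* _) U⁻¹, φ.symm, ?_⟩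
  rw [map_mulVec']
  have h1 : (((Matrix.GeneralLinearGroup.map (φ.symm : MvPowerSeries (Fin 2) F →+* _) U⁻¹ :
      GL (Fin 2) (MvPowerSeries (Fin 2) F))) : Matrix (Fin 2) (Fin 2) (MvPowerSeries (Fin 2) F)) =
      ((U⁻¹ : GL (Fin 2) (MvPowerSeries (Fin 2) F)) :
        Matrix (Fin 2) (Fin 2) (MvPowerSeries (Fin 2) F)).map φ.symm := rfl
  rw [h1, Matrix.mulVec_mulVec]
  have h2 : ((U⁻¹ : GL (Fin 2) (MvPowerSeries (Fin 2) F)) :
        Matrix (Fin 2) (Fin 2) (MvPowerSeries (Fin 2) F)).map φ.symm *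
      (U : Matrix (Fin 2) (Fin 2) (MvPowerSeries (Fin 2) F)).map φ.symm = 1 := by
    rw [← Matrix.map_mul, Units.inv_mul, Matrix.map_one _ (map_zero _) (map_one _)]
  rw [h2, Matrix.one_mulVec]
  funext i
  simp

lemma contactEquiv_trans {f g h : Fin 2 → MvPowerSeries (Fin 2) F} (hfg : ContactEquiv f g)
    (hgh : ContactEquiv g h) : ContactEquiv f h := by
  obtain ⟨U, φ, rfl⟩ := hfg
  obtain ⟨V, ψ, rfl⟩ := hgh
  refine ⟨V * Matrix.GeneralLinearGroup.map (ψ : MvPowerSeries (Fin 2) F →+* _) U, φ.trans ψ, ?_⟩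
  rw [map_mulVec', Units.val_mul, ← Matrix.mulVec_mulVec]
  rfl

/-- Contact equivalence from an explicit matrix. -/
lemma contactEquiv_of_matrix (f g : Fin 2 → MvPowerSeries (Fin 2) F)
    (φ : MvPowerSeries (Fin 2) F ≃ₐ[F] MvPowerSeries (Fin 2) F)
    (m00 m01 m10 m11 : MvPowerSeries (Fin 2) F)
    (hm : constantCoeff (m00 * m11 - m01 * m10) ≠ 0)
    (h0 : φ (f 0) = m00 * g 0 + m01 * g 1) (h1 : φ (f 1) = m10 * g 0 + m11 * g 1) :
    ContactEquiv f g := by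
  let M : Matrix (Fin 2) (Fin 2) (MvPowerSeries (Fin 2) F) := !![m00, m01; m10, m11]
  have hM : (fun i => φ (f i)) = M.mulVec g := by
    funext i
    fin_cases i
    · show φ (f 0) = M.mulVec g 0
      rw [h0]
      simp [M, Matrix.mulVec, dotProduct, Fin.sum_univ_two]
    · show φ (f 1) = M.mulVec g 1
      rw [h1]
      simp [M, Matrix.mulVec, dotProduct, Fin.sum_univ_two]
  have hdet : IsUnit M.det := by
    rw [Matrix.det_fin_two_of, isUnit_iff_constantCoeff]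
    exact isUnit_iff_ne_zero.2 hm
  obtain ⟨V, hV⟩ := (Matrix.isUnit_iff_isUnit_det M).2 hdet
  refine ⟨V⁻¹, φ, ?_⟩
  rw [hM, ← hV, Matrix.mulVec_mulVec, Units.inv_mul, Matrix.one_mulVec]

/-! ### Automorphisms -/

/-- Power series in `y`, characterized by their invariance under substitutions fixing `y`. -/
def InY (v : MvPowerSeries (Fin 2) F) : Prop :=
  ∀ c : Fin 2 → MvPowerSeries (Fin 2) F, HasSubst c → c 1 = X 1 → subst c v = v

lemma inY_C (r : F) : InY (C r) := fun _ _ _ => subst_C r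

lemma inY_X : InY (X 1 : MvPowerSeries (Fin 2) F) := fun c hc h => by rw [subst_X hc, h]

lemma InY.add {v w : MvPowerSeries (Fin 2) F} (hv : InY v) (hw : InY w) : InY (v + w) :=
  fun c hc h => by rw [subst_add hc, hv c hc h, hw c hc h]

lemma InY.mul {v w : MvPowerSeries (Fin 2) F} (hv : InY v) (hw : InY w) : InY (v * w) :=
  fun c hc h => by rw [subst_mul hc, hv c hc h, hw c hc h]

lemma InY.pow {v : MvPowerSeries (Fin 2) F} (hv : InY v) (n : ℕ) : InY (v ^ n) :=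
  fun c hc h => by rw [subst_pow hc, hv c hc h]

lemma InY.inv {v : MvPowerSeries (Fin 2) F} (hv : InY v) (h0 : constantCoeff v ≠ 0) :
    InY v⁻¹ := by
  intro c hc h
  have h1 := MvPowerSeries.mul_inv_cancel v h0
  have h2 := congrArg (subst c) h1
  have hone : subst c (1 : MvPowerSeries (Fin 2) F) = 1 := by
    rw [← substAlgHom_apply hc, map_one]
  rw [subst_mul hc, hv c hc h, hone] at h2
  have hv0 : v ≠ 0 := by
    rintro rfl
    exact h0 (map_zero _)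
  apply mul_left_cancel₀ hv0
  rw [h2, h1]

/-- The automorphism `x ↦ x v(y) + q(y)`, `y ↦ y`. -/
noncomputable def tri (v q : MvPowerSeries (Fin 2) F) (hv0 : constantCoeff v ≠ 0)
    (hq0 : constantCoeff q = 0) (hv : InY v) (hq : InY q) :
    MvPowerSeries (Fin 2) F ≃ₐ[F] MvPowerSeries (Fin 2) F := by
  have ha : ∀ i, constantCoeff ((![X 0 * v + q, X 1] : Fin 2 → MvPowerSeries (Fin 2) F) i) = 0 := by
    intro i
    fin_cases i
    · simp [hq0]
    · simp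
  have hb : ∀ i, constantCoeff ((![(X 0 - q) * v⁻¹, X 1] :
      Fin 2 → MvPowerSeries (Fin 2) F) i) = 0 := by
    intro i
    fin_cases i
    · simp [hq0]
    · simp
  have h1 := MvPowerSeries.mul_inv_cancel v hv0
  refine substEquiv ![X 0 * v + q, X 1] ![(X 0 - q) * v⁻¹, X 1] ha hb ?_ ?_
  · intro i
    fin_cases i
    · show subst ![X 0 * v + q, X 1] ((X 0 - q) * v⁻¹) = X 0
      rw [subst_mul (hasSubst_of ha), subst_sub (hasSubst_of ha), subst_X (hasSubst_of ha),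
        hq _ (hasSubst_of ha) rfl, (hv.inv hv0) _ (hasSubst_of ha) rfl]
      show (X 0 * v + q - q) * v⁻¹ = X 0
      linear_combination X 0 * h1
    · show subst ![X 0 * v + q, X 1] (X 1) = X 1
      rw [subst_X (hasSubst_of ha)]
      rfl
  · intro i
    fin_cases i
    · show subst ![(X 0 - q) * v⁻¹, X 1] (X 0 * v + q) = X 0
      rw [subst_add (hasSubst_of hb), subst_mul (hasSubst_of hb), subst_X (hasSubst_of hb),
        hq _ (hasSubst_of hb) rfl, hv _ (hasSubst_of hb) rfl]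
      show (X 0 - q) * v⁻¹ * v + q = X 0
      linear_combination (X 0 - q) * h1
    · show subst ![(X 0 - q) * v⁻¹, X 1] (X 1) = X 1
      rw [subst_X (hasSubst_of hb)]
      rfl

lemma tri_X0 (v q : MvPowerSeries (Fin 2) F) (hv0 : constantCoeff v ≠ 0)
    (hq0 : constantCoeff q = 0) (hv : InY v) (hq : InY q) :
    tri v q hv0 hq0 hv hq (X 0) = X 0 * v + q := by
  rw [tri, substEquiv_X]
  rfl

lemma tri_X1 (v q : MvPowerSeries (Fin 2) F) (hv0 : constantCoeff v ≠ 0)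
    (hq0 : constantCoeff q = 0) (hv : InY v) (hq : InY q) :
    tri v q hv0 hq0 hv hq (X 1) = X 1 := by
  rw [tri, substEquiv_X]
  rfl

/-- The automorphism `x ↦ t^2 x`, `y ↦ t y`. -/
noncomputable def scal (t : F) (ht : t ≠ 0) :
    MvPowerSeries (Fin 2) F ≃ₐ[F] MvPowerSeries (Fin 2) F := by
  have ha : ∀ t : F, ∀ i, constantCoeff ((![C (t ^ 2) * X 0, C t * X 1] :
      Fin 2 → MvPowerSeries (Fin 2) F) i) = 0 := by
    intro t i
    fin_cases i <;> simp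
  have key : ∀ t u : F, t * u = 1 → ∀ i, subst (![C (t ^ 2) * X 0, C t * X 1] :
      Fin 2 → MvPowerSeries (Fin 2) F) ((![C (u ^ 2) * X 0, C u * X 1] :
      Fin 2 → MvPowerSeries (Fin 2) F) i) = X i := by
    intro t u htu i
    fin_cases i
    · show subst ![C (t ^ 2) * X 0, C t * X 1] (C (u ^ 2) * X 0) = X 0
      rw [subst_mul (hasSubst_of (ha t)), subst_X (hasSubst_of (ha t)), subst_C]
      show C (u ^ 2) * (C (t ^ 2) * X 0) = X 0
      have : C (u ^ 2) * C (t ^ 2) = (1 : MvPowerSeries (Fin 2) F) := by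
        rw [← map_mul, ← mul_pow, mul_comm, htu, one_pow, map_one]
      linear_combination X 0 * this
    · show subst ![C (t ^ 2) * X 0, C t * X 1] (C u * X 1) = X 1
      rw [subst_mul (hasSubst_of (ha t)), subst_X (hasSubst_of (ha t)), subst_C]
      show C u * (C t * X 1) = X 1
      have : C u * C t = (1 : MvPowerSeries (Fin 2) F) := by
        rw [← map_mul, mul_comm, htu, map_one]
      linear_combination X 1 * this
  exact substEquiv ![C (t ^ 2) * X 0, C t * X 1] ![C (t⁻¹ ^ 2) * X 0, C t⁻¹ * X 1] (ha t) (ha t⁻¹)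
    (key t t⁻¹ (mul_inv_cancel₀ ht)) (key t⁻¹ t (inv_mul_cancel₀ ht))

lemma scal_X0 (t : F) (ht : t ≠ 0) : scal t ht (X 0) = C (t ^ 2) * X 0 := by
  rw [scal, substEquiv_X]
  rfl

lemma scal_X1 (t : F) (ht : t ≠ 0) : scal t ht (X 1) = C t * X 1 := by
  rw [scal, substEquiv_X]
  rfl

/-! ### Characteristic `2` -/

lemma toNormalForm_two [CharP F 2] (l a b : F) (hl : l ^ 2 = -1) (ha : a ≠ 0) :
    ContactEquiv (fam 2 l a b) (nf 2 l) := by
  have h2F : (2 : F) = 0 := by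
    have := CharP.cast_eq_zero F 2
    exact_mod_cast this
  have h2 : (2 : MvPowerSeries (Fin 2) F) = 0 := by
    rw [← map_ofNat (C : F →+* MvPowerSeries (Fin 2) F) 2]
    have : (OfNat.ofNat 2 : F) = 0 := h2F
    rw [this, map_zero]
  have hl0 : l ≠ 0 := by
    rintro rfl
    simp at hl
  have hlC : (C l : MvPowerSeries (Fin 2) F) ^ 2 = -1 := by
    rw [← map_pow, hl, map_neg, map_one]
  let V : MvPowerSeries (Fin 2) F := C a + X 1 + C b * X 1 ^ 2
  let W : MvPowerSeries (Fin 2) F := C l + C a * X 1 ^ 2 + X 1 ^ 3 + C b * X 1 ^ 4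
  have hV0 : constantCoeff V = a := by simp [V]
  have hW0 : constantCoeff W = l := by simp [W]
  have hVY : InY V := ((inY_C a).add inY_X).add ((inY_C b).mul (inY_X.pow 2))
  have hWY : InY W := (((inY_C l).add ((inY_C a).mul (inY_X.pow 2))).add (inY_X.pow 3)).add
    ((inY_C b).mul (inY_X.pow 4))
  have hW : W * W⁻¹ = 1 := MvPowerSeries.mul_inv_cancel W (by rwa [hW0])
  have hvY : InY (C l * V * W⁻¹) := ((inY_C l).mul hVY).mul (hWY.inv (by rwa [hW0]))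
  have hv0 : constantCoeff (C l * V * W⁻¹) ≠ 0 := by
    rw [map_mul, map_mul, constantCoeff_C, hV0, constantCoeff_inv, hW0]
    exact mul_ne_zero (mul_ne_zero hl0 ha) (inv_ne_zero hl0)
  have hqY : InY (C l * X 1 ^ 2 : MvPowerSeries (Fin 2) F) := (inY_C l).mul (inY_X.pow 2)
  have hq0 : constantCoeff (C l * X 1 ^ 2 : MvPowerSeries (Fin 2) F) = 0 := by simp
  refine contactEquiv_of_matrix (fam 2 l a b) (nf 2 l) (tri _ _ hv0 hq0 hvY hqY)
    ((C l * V * W⁻¹) ^ 2) 0 0 (C l * V) ?_ ?_ ?_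
  · rw [mul_zero, sub_zero, map_mul, map_pow, map_mul (constantCoeff) (C l) V, constantCoeff_C,
      hV0]
    exact mul_ne_zero (pow_ne_zero _ hv0) (mul_ne_zero hl0 ha)
  · show tri _ _ hv0 hq0 hvY hqY (X 0 ^ 2 + X 1 ^ 4) = _
    rw [map_add, map_pow, map_pow, tri_X0, tri_X1]
    show _ = (C l * V * W⁻¹) ^ 2 * (X 0 ^ 2 + C (2 * l) * X 0 * X 1 ^ 2) +
      0 * (X 0 * X 1 ^ 3 + X 1 ^ (2 + 5))
    rw [h2F, zero_mul, map_zero]
    linear_combination (C l * V * W⁻¹ * X 0 * C l * X 1 ^ 2) * h2 + X 1 ^ 4 * hlC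
  · show tri _ _ hv0 hq0 hvY hqY (X 1 ^ 5 + C l * X 0 * X 1 ^ 3 + C a * X 0 * X 1 ^ (2 + 3) +
      X 0 * X 1 ^ (2 + 4) + C b * X 0 * X 1 ^ (2 * 2 + 3)) = _
    simp only [map_add, map_mul, map_pow, tri_X0, tri_X1, algEquiv_C]
    show _ = 0 * (X 0 ^ 2 + C (2 * l) * X 0 * X 1 ^ 2) + C l * V * (X 0 * X 1 ^ 3 + X 1 ^ (2 + 5))
    have e1 : (X 1 ^ 5 + C l * (X 0 * (C l * V * W⁻¹) + C l * X 1 ^ 2) * X 1 ^ 3 +
        C a * (X 0 * (C l * V * W⁻¹) + C l * X 1 ^ 2) * X 1 ^ (2 + 3) +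
        (X 0 * (C l * V * W⁻¹) + C l * X 1 ^ 2) * X 1 ^ (2 + 4) +
        C b * (X 0 * (C l * V * W⁻¹) + C l * X 1 ^ 2) * X 1 ^ (2 * 2 + 3)) =
        X 0 * X 1 ^ 3 * C l * V * (W * W⁻¹) + X 1 ^ 5 * (1 + C l ^ 2) + C l * X 1 ^ 7 * V := by
      simp only [V, W]
      ring
    rw [e1, hW, hlC]
    ring

/-! ### Odd characteristic -/

/-- The computation in the quotient by `m (g_1, g_2)` (`p = n + 2`). -/
lemma quotient_calc {Q : Type*} [CommRing Q] (n : ℕ) (x y l a b t s w : Q) (hl : l ^ 2 = -1)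
    (ht : a * t ^ (n + 2) = 1) (hs : t ^ (n + 3) = 2 * s)
    (H2 : y * (x ^ 2 + 2 * l * x * y ^ 2) = 0)
    (H3 : x * (x * y ^ 3 + y ^ (n + 7)) = 0) (H4 : y * (x * y ^ 3 + y ^ (n + 7)) = 0)
    (hw : (2 * l - y ^ (n + 2)) * w = 1) :
    (t ^ 2 * (x * (1 + s * y) + (-s * y ^ (n + 5) - s ^ 2 * y ^ (n + 6) + l * y ^ 2))) ^ 2 +
        (t * y) ^ 4 =
      t ^ 4 * (x ^ 2 + 2 * l * x * y ^ 2) + -(2 * l * s * t ^ 4) * (x * y ^ 3 + y ^ (n + 7)) ∧
    (t * y) ^ 5 + l * (t ^ 2 * (x * (1 + s * y) +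
        (-s * y ^ (n + 5) - s ^ 2 * y ^ (n + 6) + l * y ^ 2))) * (t * y) ^ 3 +
      a * (t ^ 2 * (x * (1 + s * y) +
        (-s * y ^ (n + 5) - s ^ 2 * y ^ (n + 6) + l * y ^ 2))) * (t * y) ^ (n + 5) +
      (t ^ 2 * (x * (1 + s * y) +
        (-s * y ^ (n + 5) - s ^ 2 * y ^ (n + 6) + l * y ^ 2))) * (t * y) ^ (n + 6) +
      b * (t ^ 2 * (x * (1 + s * y) +
        (-s * y ^ (n + 5) - s ^ 2 * y ^ (n + 6) + l * y ^ 2))) * (t * y) ^ (2 * n + 7) =
      l * t ^ 5 * (x * y ^ 3 + y ^ (n + 7)) := by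
  have K : x * y ^ 5 = 0 := by
    have e : x * y ^ 5 * (2 * l - y ^ (n + 2)) = 0 := by
      linear_combination y ^ 2 * H2 - H3
    calc x * y ^ 5 = x * y ^ 5 * ((2 * l - y ^ (n + 2)) * w) := by rw [hw, mul_one]
      _ = x * y ^ 5 * (2 * l - y ^ (n + 2)) * w := by ring
      _ = 0 := by rw [e, zero_mul]
  have K2 : y ^ (n + 9) = 0 := by
    linear_combination y * H4 - K
  constructor
  · linear_combination t ^ 4 * y ^ 4 * hl + 2 * s * t ^ 4 * H2 + s ^ 2 * t ^ 4 * y * H2 -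
      2 * l * s ^ 2 * t ^ 4 * H4 -
      2 * (1 + s * y) * (s + s ^ 2 * y) * t ^ 4 * y ^ n * K +
      (s + s ^ 2 * y) ^ 2 * t ^ 4 * y ^ (n + 1) * K2
  · linear_combination t ^ 5 * y ^ 5 * hl + l * t ^ 5 * s * H4 - l * t ^ 5 * s ^ 2 * K2 +
      a * t ^ (n + 7) * ((1 + s * y) * y ^ n * K - (s * y ^ (n + 1) + s ^ 2 * y ^ (n + 2)) * K2) +
      l * t ^ 5 * y ^ (n + 7) * ht +
      t ^ (n + 8) * ((1 + s * y) * y ^ (n + 1) * K -
        (s * y ^ (n + 2) + s ^ 2 * y ^ (n + 3)) * K2) +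
      l * t ^ 5 * y ^ (n + 8) * hs +
      b * t ^ (2 * n + 9) * ((1 + s * y) * y ^ (2 * n + 2) * K -
        (s * y ^ (2 * n + 3) + s ^ 2 * y ^ (2 * n + 4)) * K2 + l * y ^ n * K2)

lemma toNormalForm_odd [IsAlgClosed F] (n : ℕ) (l a b : F) (hl : l ^ 2 = -1) (ha : a ≠ 0)
    (h2 : (2 : F) ≠ 0) : ContactEquiv (fam (n + 2) l a b) (nf (n + 2) l) := by
  obtain ⟨t, ht⟩ := IsAlgClosed.exists_pow_nat_eq a⁻¹ (show 0 < n + 2 by omega)
  have ht0 : t ≠ 0 := by
    rintro rfl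
    rw [zero_pow (by omega)] at ht
    exact inv_ne_zero ha ht.symm
  have hl0 : l ≠ 0 := by
    rintro rfl
    simp at hl
  let s : F := t ^ (n + 3) / 2
  have hs : t ^ (n + 3) = 2 * s := by
    simp only [s]
    field_simp
  have hat : a * t ^ (n + 2) = 1 := by rw [ht, mul_inv_cancel₀ ha]
  let g := nf (n + 2) l
  let π : MvPowerSeries (Fin 2) F →+* MvPowerSeries (Fin 2) F ⧸ mIdeal g :=
    Ideal.Quotient.mk (mIdeal g)
  have hzero : ∀ z ∈ mIdeal g, π z = 0 := fun z hz => Ideal.Quotient.eq_zero_iff_mem.2 hz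
  have hg0 : g 0 = X 0 ^ 2 + C (2 * l) * X 0 * X 1 ^ 2 := rfl
  have hg1 : g 1 = X 0 * X 1 ^ 3 + X 1 ^ (n + 7) := rfl
  have H2 : π (X 1 * g 0) = 0 := hzero _ (Ideal.subset_span (by simp))
  have H3 : π (X 0 * g 1) = 0 := hzero _ (Ideal.subset_span (by simp))
  have H4 : π (X 1 * g 1) = 0 := hzero _ (Ideal.subset_span (by simp))
  have hC2 : π (C 2) = 2 := by
    have : (C 2 : MvPowerSeries (Fin 2) F) = 2 := map_ofNat C 2
    rw [this, map_ofNat]
  have hlC : π (C l) ^ 2 = -1 := by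
    rw [← map_pow, ← map_pow, hl, map_neg, map_neg, map_one, map_one]
  have htC : π (C a) * π (C t) ^ (n + 2) = 1 := by
    rw [← map_pow, ← map_pow, ← map_mul, ← map_mul, hat, map_one, map_one]
  have hsC : π (C t) ^ (n + 3) = 2 * π (C s) := by
    rw [← map_pow, ← map_pow, hs, map_mul, map_mul, hC2]
  have hW : ((C 2 * C l - X 1 ^ (n + 2)) * (C 2 * C l - X 1 ^ (n + 2))⁻¹ :
      MvPowerSeries (Fin 2) F) = 1 := by
    apply MvPowerSeries.mul_inv_cancel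
    simp [h2, hl0]
  have hw := congrArg π hW
  rw [hg0] at H2
  rw [hg1] at H3 H4
  simp only [map_add, map_mul, map_pow, map_sub, map_one, hC2] at H2 H3 H4 hw
  obtain ⟨r1, r2⟩ := quotient_calc n (π (X 0)) (π (X 1)) (π (C l)) (π (C a)) (π (C b)) (π (C t))
    (π (C s)) _ hlC htC hsC H2 H3 H4 hw
  have hvY : InY (1 + C s * X 1 : MvPowerSeries (Fin 2) F) := by
    have := (inY_C (1 : F)).add ((inY_C s).mul inY_X)
    rwa [map_one] at this
  have hqY : InY (C (-s) * X 1 ^ (n + 5) + C (-s ^ 2) * X 1 ^ (n + 6) + C l * X 1 ^ 2 :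
      MvPowerSeries (Fin 2) F) :=
    (((inY_C _).mul (inY_X.pow _)).add ((inY_C _).mul (inY_X.pow _))).add
      ((inY_C _).mul (inY_X.pow _))
  have hv0 : constantCoeff (1 + C s * X 1 : MvPowerSeries (Fin 2) F) ≠ 0 := by simp
  have hq0 : constantCoeff (C (-s) * X 1 ^ (n + 5) + C (-s ^ 2) * X 1 ^ (n + 6) + C l * X 1 ^ 2 :
      MvPowerSeries (Fin 2) F) = 0 := by simp
  let E1 := tri _ _ hv0 hq0 hvY hqY
  let φ := (scal t ht0).trans E1
  have φ0 : φ (X 0) = C (t ^ 2) * (X 0 * (1 + C s * X 1) +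
      (C (-s) * X 1 ^ (n + 5) + C (-s ^ 2) * X 1 ^ (n + 6) + C l * X 1 ^ 2)) := by
    show E1 (scal t ht0 (X 0)) = _
    rw [scal_X0, map_mul, algEquiv_C, tri_X0]
  have φ1 : φ (X 1) = C t * X 1 := by
    show E1 (scal t ht0 (X 1)) = _
    rw [scal_X1, map_mul, algEquiv_C, tri_X1]
  refine contactEquiv_of (fam (n + 2) l a b) g φ (t ^ 4) (-(2 * l * s * t ^ 4)) 0 (l * t ^ 5)
    ?_ ?_ ?_
  · rw [mul_zero, sub_zero]
    exact mul_ne_zero (pow_ne_zero _ ht0) (mul_ne_zero hl0 (pow_ne_zero _ ht0))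
  · rw [← Ideal.Quotient.eq_zero_iff_mem]
    show π (φ (X 0 ^ 2 + X 1 ^ 4) - (C (t ^ 4) * (X 0 ^ 2 + C (2 * l) * X 0 * X 1 ^ 2) +
      C (-(2 * l * s * t ^ 4)) * (X 0 * X 1 ^ 3 + X 1 ^ (n + 7)))) = 0
    simp only [map_add, map_mul, map_pow, map_sub, map_one, map_neg, φ0, φ1, hC2]
    linear_combination r1
  · rw [← Ideal.Quotient.eq_zero_iff_mem]
    show π (φ (X 1 ^ 5 + C l * X 0 * X 1 ^ 3 + C a * X 0 * X 1 ^ (n + 5) + X 0 * X 1 ^ (n + 6) +
      C b * X 0 * X 1 ^ (2 * (n + 2) + 3)) - (C 0 * (X 0 ^ 2 + C (2 * l) * X 0 * X 1 ^ 2) +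
      C (l * t ^ 5) * (X 0 * X 1 ^ 3 + X 1 ^ (n + 7)))) = 0
    have e1 : 2 * (n + 2) + 3 = 2 * n + 7 := by ring
    rw [e1]
    simp only [map_add, map_mul, map_pow, map_sub, map_one, map_neg, map_zero, φ0, φ1, hC2,
      algEquiv_C]
    linear_combination r2

/-- Let `F` be an algebraically closed field of characteristic `p > 0` and `λ² = -1`. All the germs
`f_{a,b}` with `a ≠ 0` are contact equivalent to each other. In particular every nonempty basic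
Zariski-open subset `{P ≠ 0}` of `F^4` contains a point `(a, b, c, d)` with
`f_{a,b} ∼ f_{c,d}`. -/
theorem result (p : ℕ) [Fact p.Prime] (F : Type*) [Field F] [IsAlgClosed F] [CharP F p]
    (l : F) (hl : l ^ 2 = -1) :
    (∀ a b c d : F, a ≠ 0 → c ≠ 0 → ContactEquiv (fam p l a b) (fam p l c d)) ∧
    ∀ P : MvPolynomial (Fin 4) F, P ≠ 0 → ∃ v : Fin 4 → F, MvPolynomial.eval v P ≠ 0 ∧
      ContactEquiv (fam p l (v 0) (v 1)) (fam p l (v 2) (v 3)) := by
  have hpp : p.Prime := Fact.out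
  have key : ∀ a b : F, a ≠ 0 → ContactEquiv (fam p l a b) (nf p l) := by
    intro a b ha
    by_cases h : p = 2
    · subst h
      exact toNormalForm_two l a b hl ha
    · obtain ⟨n, rfl⟩ : ∃ n, p = n + 2 := ⟨p - 2, by have := hpp.two_le; omega⟩
      refine toNormalForm_odd n l a b hl ha ?_
      intro h2
      have h3 : ((2 : ℕ) : F) = 0 := by exact_mod_cast h2
      rw [CharP.cast_eq_zero_iff F (n + 2)] at h3
      have := Nat.le_of_dvd two_pos h3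
      omega
  have key2 : ∀ a b c d : F, a ≠ 0 → c ≠ 0 → ContactEquiv (fam p l a b) (fam p l c d) :=
    fun a b c d ha hc => contactEquiv_trans (key a b ha) (contactEquiv_symm (key c d hc))
  refine ⟨key2, fun P hP => ?_⟩
  have hne : P * MvPolynomial.X 0 * MvPolynomial.X 2 ≠ 0 :=
    mul_ne_zero (mul_ne_zero hP (MvPolynomial.X_ne_zero _)) (MvPolynomial.X_ne_zero _)
  have hinf : Infinite F := IsAlgClosed.instInfinite
  obtain ⟨v, hv⟩ : ∃ v : Fin 4 → F,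
      MvPolynomial.eval v (P * MvPolynomial.X 0 * MvPolynomial.X 2) ≠ 0 := by
    by_contra h
    push Not at h
    apply hne
    apply MvPolynomial.funext
    intro v
    rw [h v, map_zero]
  rw [map_mul, map_mul, MvPolynomial.eval_X, MvPolynomial.eval_X] at hv
  have h1 := left_ne_zero_of_mul hv
  exact ⟨v, left_ne_zero_of_mul h1, key2 _ _ _ _ (right_ne_zero_of_mul h1)
    (right_ne_zero_of_mul hv)⟩

end Pool.Agent.Results.MP_65bbe4_ag.OneClass
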